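import Mathlib

set_option autoImplicit false
set_option maxHeartbeats 400000

namespace Pool.Agent.Results.MP_d69fce_al.CentralExt

def IsHalfDer {L : Type} [LieRing L] [LieAlgebra ℂ L] (φ : L → L) : Prop :=
  IsLinearMap ℂ φ ∧ ∀ x y, φ ⁅x, y⁆ = (1 / 2 : ℂ) • (⁅φ x, y⁆ + ⁅x, φ y⁆)

def IsTP {L : Type} [LieRing L] [LieAlgebra ℂ L] (m : L → L → L) : Prop :=
  (∀ x, IsLinearMap ℂ (m x)) ∧ (∀ x y, m x y = m y x) ∧ (∀ x y z, m (m x y) z = m x (m y z)) ∧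
    ∀ x y z, (2 : ℂ) • m z ⁅x, y⁆ = ⁅m z x, y⁆ + ⁅x, m z y⁆

def IsScalar {L : Type} [LieRing L] [LieAlgebra ℂ L] (φ : L → L) : Prop :=
  ∃ t : ℂ, ∀ x, φ x = t • x

def IsNonsplitExt {M L : Type} [LieRing M] [LieAlgebra ℂ M] [LieRing L] [LieAlgebra ℂ L]
    (π : M →ₗ⁅ℂ⁆ L) (c : M) : Prop :=
  Function.Surjective π ∧ c ≠ 0 ∧ (∀ x : M, ⁅c, x⁆ = 0) ∧ (∀ x, π x = 0 ↔ ∃ t : ℂ, x = t • c) ∧
    ¬ ∃ s : L →ₗ⁅ℂ⁆ M, ∀ x, π (s x) = x

def A := Fin 8 → ℂ
def E := Fin 9 → ℂ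

noncomputable instance : AddCommGroup A := inferInstanceAs (AddCommGroup (Fin 8 → ℂ))
noncomputable instance : Module ℂ A := inferInstanceAs (Module ℂ (Fin 8 → ℂ))
noncomputable instance : AddCommGroup E := inferInstanceAs (AddCommGroup (Fin 9 → ℂ))
noncomputable instance : Module ℂ E := inferInstanceAs (Module ℂ (Fin 9 → ℂ))

def bA (x y : Fin 8 → ℂ) : Fin 8 → ℂ :=
  ![x 1 * y 2 - y 1 * x 2, x 0 * y 1 + x 1 * y 3 - y 0 * x 1 - y 1 * x 3,
    x 2 * y 0 + x 3 * y 2 - y 2 * x 0 - y 3 * x 2, x 2 * y 1 - y 2 * x 1,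
    x 0 * y 4 + x 1 * y 5 - y 0 * x 4 - y 1 * x 5, x 2 * y 4 + x 3 * y 5 - y 2 * x 4 - y 3 * x 5,
    x 6 * y 0 + x 7 * y 2 - y 6 * x 0 - y 7 * x 2, x 6 * y 1 + x 7 * y 3 - y 6 * x 1 - y 7 * x 3]

def bE (x y : Fin 9 → ℂ) : Fin 9 → ℂ :=
  ![x 1 * y 2 - y 1 * x 2, x 0 * y 1 + x 1 * y 3 - y 0 * x 1 - y 1 * x 3,
    x 2 * y 0 + x 3 * y 2 - y 2 * x 0 - y 3 * x 2, x 2 * y 1 - y 2 * x 1,
    x 0 * y 4 + x 1 * y 5 - y 0 * x 4 - y 1 * x 5, x 2 * y 4 + x 3 * y 5 - y 2 * x 4 - y 3 * x 5,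
    x 6 * y 0 + x 7 * y 2 - y 6 * x 0 - y 7 * x 2, x 6 * y 1 + x 7 * y 3 - y 6 * x 1 - y 7 * x 3,
    x 6 * y 4 + x 7 * y 5 - y 6 * x 4 - y 7 * x 5]

noncomputable instance : LieRing A where
  bracket := bA
  add_lie (x y z : Fin 8 → ℂ) := show bA (x + y) z = bA x z + bA y z by
    ext i; fin_cases i <;> simp [bA] <;> ring
  lie_add (x y z : Fin 8 → ℂ) := show bA x (y + z) = bA x y + bA x z by
    ext i; fin_cases i <;> simp [bA] <;> ring
  lie_self (x : Fin 8 → ℂ) := show bA x x = 0 by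
    ext i; fin_cases i <;> simp [bA] <;> ring
  leibniz_lie (x y z : Fin 8 → ℂ) := show bA x (bA y z) = bA (bA x y) z + bA y (bA x z) by
    ext i; fin_cases i <;> simp [bA] <;> ring

noncomputable instance : LieAlgebra ℂ A where
  lie_smul t (x y : Fin 8 → ℂ) := show bA x (t • y) = t • bA x y by
    ext i; fin_cases i <;> simp [bA] <;> ring

noncomputable instance : LieRing E where
  bracket := bE
  add_lie (x y z : Fin 9 → ℂ) := show bE (x + y) z = bE x z + bE y z by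
    ext i; fin_cases i <;> simp [bE] <;> ring
  lie_add (x y z : Fin 9 → ℂ) := show bE x (y + z) = bE x y + bE x z by
    ext i; fin_cases i <;> simp [bE] <;> ring
  lie_self (x : Fin 9 → ℂ) := show bE x x = 0 by
    ext i; fin_cases i <;> simp [bE] <;> ring
  leibniz_lie (x y z : Fin 9 → ℂ) := show bE x (bE y z) = bE (bE x y) z + bE y (bE x z) by
    ext i; fin_cases i <;> simp [bE] <;> ring

noncomputable instance : LieAlgebra ℂ E where
  lie_smul t (x y : Fin 9 → ℂ) := show bE x (t • y) = t • bE x y by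
    ext i; fin_cases i <;> simp [bE] <;> ring

def R (a : Fin 8 → Fin 8 → ℂ) : Prop :=
  ∀ i j k : Fin 8, 2 * ∑ l, bA (Pi.single i 1) (Pi.single j 1) l * a l k =
    bA (a i) (Pi.single j 1) k + bA (Pi.single i 1) (a j) k

lemma k0 {a : Fin 8 → Fin 8 → ℂ} (H : R a) :
    a 0 1 = 0 ∧ a 0 2 = 0 ∧ a 0 3 = 0 ∧ a 0 4 = 0 ∧ a 0 5 = 0 ∧ a 0 6 = 0 ∧ a 0 7 = 0 := by
  refine ⟨?_, ?_, ?_, ?_, ?_, ?_, ?_⟩
  on_goal 1 => linear_combination (norm := skip) (-2/3) * H 2 4 4 + (1/3) * H 0 2 0 + (-4/3) * H 0 5 4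
  on_goal 2 => linear_combination (norm := skip) (2) * H 1 5 5 + (1) * H 0 1 3 + (-2) * H 0 4 5
  on_goal 3 => linear_combination (norm := skip) (-1) * H 0 5 5
  on_goal 4 => linear_combination (norm := skip) (1) * H 0 2 5 + (-2) * H 2 3 5 + (2) * H 0 3 4
  on_goal 5 => linear_combination (norm := skip) (1) * H 0 3 5
  on_goal 6 => linear_combination (norm := skip) (-1) * H 0 1 7 + (2) * H 1 3 7 + (-2) * H 0 3 6
  on_goal 7 => linear_combination (norm := skip) (-1) * H 0 3 7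
  all_goals simp only [bA, Fin.sum_univ_eight, Pi.single_apply, Matrix.cons_val, Fin.reduceEq,
    reduceIte]; ring

lemma k1 {a : Fin 8 → Fin 8 → ℂ} (H : R a) :
    a 1 0 = 0 ∧ a 1 1 = a 0 0 ∧ a 1 2 = 0 ∧ a 1 3 = 0 ∧ a 1 4 = 0 ∧ a 1 5 = 0 ∧ a 1 6 = 0 ∧ a 1 7 = 0 := by
  refine ⟨?_, ?_, ?_, ?_, ?_, ?_, ?_, ?_⟩
  on_goal 1 => linear_combination (norm := skip) (1/2) * H 0 1 0 + (-1) * H 1 5 5 + (-1/2) * H 0 1 3 + (1) * H 0 4 5
  on_goal 2 => linear_combination (norm := skip) (1) * H 0 1 1 + (1) * H 0 5 5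
  on_goal 3 => linear_combination (norm := skip) (1/3) * H 0 1 2
  on_goal 4 => linear_combination (norm := skip) (1) * H 0 1 3 + (1) * H 1 5 5 + (-1) * H 0 4 5
  on_goal 5 => linear_combination (norm := skip) (1) * H 0 1 4 + (-1) * H 0 3 5
  on_goal 6 => linear_combination (norm := skip) (1/2) * H 0 1 5
  on_goal 7 => linear_combination (norm := skip) (1/3) * H 0 1 6
  on_goal 8 => linear_combination (norm := skip) (1) * H 1 3 7 + (-1) * H 0 3 6
  all_goals simp only [bA, Fin.sum_univ_eight, Pi.single_apply, Matrix.cons_val, Fin.reduceEq,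
    reduceIte]; ring

lemma k2 {a : Fin 8 → Fin 8 → ℂ} (H : R a) :
    a 2 0 = 0 ∧ a 2 1 = 0 ∧ a 2 2 = a 0 0 ∧ a 2 3 = 0 ∧ a 2 4 = 0 ∧ a 2 5 = 0 ∧ a 2 6 = 0 ∧ a 2 7 = 0 := by
  refine ⟨?_, ?_, ?_, ?_, ?_, ?_, ?_, ?_⟩
  on_goal 1 => linear_combination (norm := skip) (-2/3) * H 0 2 0 + (1/3) * H 2 4 4 + (2/3) * H 0 5 4
  on_goal 2 => linear_combination (norm := skip) (-1/3) * H 0 2 1
  on_goal 3 => linear_combination (norm := skip) (-1) * H 0 2 2 + (1) * H 0 5 5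
  on_goal 4 => linear_combination (norm := skip) (-1/2) * H 0 2 3 + (-1/3) * H 2 4 4 + (1/6) * H 0 2 0 + (-2/3) * H 0 5 4
  on_goal 5 => linear_combination (norm := skip) (-1/3) * H 0 2 4
  on_goal 6 => linear_combination (norm := skip) (-1) * H 2 3 5 + (1) * H 0 3 4
  on_goal 7 => linear_combination (norm := skip) (-1) * H 0 2 6 + (1) * H 0 3 7
  on_goal 8 => linear_combination (norm := skip) (-1/2) * H 0 2 7
  all_goals simp only [bA, Fin.sum_univ_eight, Pi.single_apply, Matrix.cons_val, Fin.reduceEq,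
    reduceIte]; ring

lemma k3 {a : Fin 8 → Fin 8 → ℂ} (H : R a) :
    a 3 0 = 0 ∧ a 3 1 = 0 ∧ a 3 2 = 0 ∧ a 3 3 = a 0 0 ∧ a 3 4 = 0 ∧ a 3 5 = 0 ∧ a 3 6 = 0 ∧ a 3 7 = 0 := by
  refine ⟨?_, ?_, ?_, ?_, ?_, ?_, ?_, ?_⟩
  on_goal 1 => linear_combination (norm := skip) (-1) * H 3 4 4
  on_goal 2 => linear_combination (norm := skip) (-1) * H 0 3 1 + (2/3) * H 2 4 4 + (-1/3) * H 0 2 0 + (4/3) * H 0 5 4
  on_goal 3 => linear_combination (norm := skip) (1) * H 0 3 2 + (-2) * H 1 5 5 + (-1) * H 0 1 3 + (2) * H 0 4 5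
  on_goal 4 => linear_combination (norm := skip) (-1) * H 1 3 1 + (-1) * H 3 4 4 + (1) * H 0 1 1 + (1) * H 0 5 5
  on_goal 5 => linear_combination (norm := skip) (-1) * H 0 3 4
  on_goal 6 => linear_combination (norm := skip) (-1) * H 1 3 4 + (2) * H 0 1 4 + (-2) * H 0 3 5
  on_goal 7 => linear_combination (norm := skip) (1) * H 0 3 6
  on_goal 8 => linear_combination (norm := skip) (1) * H 2 3 6 + (-2) * H 0 2 6 + (2) * H 0 3 7
  all_goals simp only [bA, Fin.sum_univ_eight, Pi.single_apply, Matrix.cons_val, Fin.reduceEq,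
    reduceIte]; ring

lemma k4 {a : Fin 8 → Fin 8 → ℂ} (H : R a) :
    a 4 0 = 0 ∧ a 4 1 = 0 ∧ a 4 2 = 0 ∧ a 4 3 = 0 ∧ a 4 4 = a 0 0 ∧ a 4 5 = 0 ∧ a 4 6 = 0 ∧ a 4 7 = 0 := by
  refine ⟨?_, ?_, ?_, ?_, ?_, ?_, ?_, ?_⟩
  on_goal 1 => linear_combination (norm := skip) (1/2) * H 0 4 0
  on_goal 2 => linear_combination (norm := skip) (1) * H 0 4 1
  on_goal 3 => linear_combination (norm := skip) (1/3) * H 0 4 2
  on_goal 4 => linear_combination (norm := skip) (1/2) * H 0 4 3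
  on_goal 5 => linear_combination (norm := skip) (1) * H 0 4 4
  on_goal 6 => linear_combination (norm := skip) (-1/2) * H 0 4 5 + (1) * H 1 5 5 + (1/2) * H 0 1 3
  on_goal 7 => linear_combination (norm := skip) (1/3) * H 0 4 6
  on_goal 8 => linear_combination (norm := skip) (1/2) * H 0 4 7
  all_goals simp only [bA, Fin.sum_univ_eight, Pi.single_apply, Matrix.cons_val, Fin.reduceEq,
    reduceIte]; ring

lemma k5 {a : Fin 8 → Fin 8 → ℂ} (H : R a) :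
    a 5 0 = 0 ∧ a 5 1 = 0 ∧ a 5 2 = 0 ∧ a 5 3 = 0 ∧ a 5 4 = 0 ∧ a 5 5 = a 0 0 ∧ a 5 6 = 0 ∧ a 5 7 = 0 := by
  refine ⟨?_, ?_, ?_, ?_, ?_, ?_, ?_, ?_⟩
  on_goal 1 => linear_combination (norm := skip) (1/2) * H 3 5 0
  on_goal 2 => linear_combination (norm := skip) (-1) * H 0 5 1
  on_goal 3 => linear_combination (norm := skip) (1) * H 0 5 2
  on_goal 4 => linear_combination (norm := skip) (1/2) * H 3 5 3
  on_goal 5 => linear_combination (norm := skip) (1/3) * H 0 5 4 + (2/3) * H 2 4 4 + (-1/3) * H 0 2 0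
  on_goal 6 => linear_combination (norm := skip) (1) * H 3 5 5 + (-1) * H 1 3 1 + (-1) * H 3 4 4 + (1) * H 0 1 1 + (1) * H 0 5 5
  on_goal 7 => linear_combination (norm := skip) (1) * H 0 5 6
  on_goal 8 => linear_combination (norm := skip) (1/2) * H 2 4 7
  all_goals simp only [bA, Fin.sum_univ_eight, Pi.single_apply, Matrix.cons_val, Fin.reduceEq,
    reduceIte]; ring

lemma k6 {a : Fin 8 → Fin 8 → ℂ} (H : R a) :
    a 6 0 = 0 ∧ a 6 1 = 0 ∧ a 6 2 = 0 ∧ a 6 3 = 0 ∧ a 6 4 = 0 ∧ a 6 5 = 0 ∧ a 6 6 = a 0 0 ∧ a 6 7 = 0 := by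
  refine ⟨?_, ?_, ?_, ?_, ?_, ?_, ?_, ?_⟩
  on_goal 1 => linear_combination (norm := skip) (-1/2) * H 0 6 0
  on_goal 2 => linear_combination (norm := skip) (-1/3) * H 0 6 1
  on_goal 3 => linear_combination (norm := skip) (-1) * H 0 6 2
  on_goal 4 => linear_combination (norm := skip) (-1/2) * H 0 6 3
  on_goal 5 => linear_combination (norm := skip) (-1/3) * H 0 6 4
  on_goal 6 => linear_combination (norm := skip) (-1/2) * H 0 6 5
  on_goal 7 => linear_combination (norm := skip) (-1) * H 0 6 6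
  on_goal 8 => linear_combination (norm := skip) (-1/3) * H 2 4 4 + (1/6) * H 0 2 0 + (-1/2) * H 0 6 7 + (-2/3) * H 0 5 4
  all_goals simp only [bA, Fin.sum_univ_eight, Pi.single_apply, Matrix.cons_val, Fin.reduceEq,
    reduceIte]; ring

lemma k7 {a : Fin 8 → Fin 8 → ℂ} (H : R a) :
    a 7 0 = 0 ∧ a 7 1 = 0 ∧ a 7 2 = 0 ∧ a 7 3 = 0 ∧ a 7 4 = 0 ∧ a 7 5 = 0 ∧ a 7 6 = 0 ∧ a 7 7 = a 0 0 := by
  refine ⟨?_, ?_, ?_, ?_, ?_, ?_, ?_, ?_⟩
  on_goal 1 => linear_combination (norm := skip) (-1/2) * H 3 7 0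
  on_goal 2 => linear_combination (norm := skip) (-1) * H 0 7 1
  on_goal 3 => linear_combination (norm := skip) (1) * H 0 7 2
  on_goal 4 => linear_combination (norm := skip) (-1/2) * H 3 7 3
  on_goal 5 => linear_combination (norm := skip) (-1) * H 0 7 4
  on_goal 6 => linear_combination (norm := skip) (-1/2) * H 1 6 5
  on_goal 7 => linear_combination (norm := skip) (-2) * H 1 5 5 + (-1) * H 0 1 3 + (1) * H 0 7 6 + (2) * H 0 4 5
  on_goal 8 => linear_combination (norm := skip) (-1) * H 1 3 1 + (-1) * H 3 4 4 + (1) * H 0 1 1 + (1) * H 0 5 5 + (-1) * H 3 7 7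
  all_goals simp only [bA, Fin.sum_univ_eight, Pi.single_apply, Matrix.cons_val, Fin.reduceEq,
    reduceIte]; ring

lemma key {a : Fin 8 → Fin 8 → ℂ} (H : R a) (i j : Fin 8) :
    a i j = if j = i then a 0 0 else 0 := by
  have := k0 H; have := k1 H; have := k2 H; have := k3 H
  have := k4 H; have := k5 H; have := k6 H; have := k7 H
  fin_cases i <;> fin_cases j <;> simp [*]

lemma triv (φ : A → A) (h : IsHalfDer φ) : IsScalar φ := by
  let ψ : (Fin 8 → ℂ) →ₗ[ℂ] (Fin 8 → ℂ) := h.1.mk' φ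
  have e : ∀ x k, ψ x k = ∑ l, x l * ψ (Pi.single l 1) k := fun x k => by
    rw [LinearMap.pi_apply_eq_sum_univ, Finset.sum_apply]
    exact Finset.sum_congr rfl fun l _ => by
      rw [Pi.smul_apply, smul_eq_mul, show (fun j => if l = j then (1 : ℂ) else 0) = Pi.single l 1 from
        funext fun m => by simp [Pi.single_apply, eq_comm]]
  have H : R fun i => ψ (Pi.single i 1) := fun i j k => by
    have : ψ (bA _ _) k = (1 / 2 : ℂ) * (bA (ψ _) _ k + bA _ (ψ _) k) :=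
      congrFun (h.2 (Pi.single i 1 : Fin 8 → ℂ) (Pi.single j 1 : Fin 8 → ℂ)) k
    rw [← e, this]; ring
  refine ⟨ψ (Pi.single 0 1) 0, fun (x : Fin 8 → ℂ) => funext fun k => ?_⟩
  change ψ x k = _ * x k
  rw [e, Finset.sum_congr rfl fun l _ => by rw [key H l k]]
  simp [mul_comm]

def pr : E →ₗ⁅ℂ⁆ A where
  toFun := fun (x : Fin 9 → ℂ) (i : Fin 8) => x i.castSucc
  map_add' _ _ := rfl
  map_smul' _ _ := rfl
  map_lie' := fun {x y : Fin 9 → ℂ} => show (fun i : Fin 8 => bE x y i.castSucc) =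
      bA (fun i => x i.castSucc) (fun i => y i.castSucc) by
    ext i; fin_cases i <;> simp [bE, bA]

noncomputable def c : E := (Pi.single 8 1 : Fin 9 → ℂ)

noncomputable def f : E →ₗ[ℂ] ℂ where
  toFun := fun x : Fin 9 → ℂ => x 0 + x 3
  map_add' (x y : Fin 9 → ℂ) := by
    change (x 0 + y 0) + (x 3 + y 3) = _
    ring
  map_smul' t (x : Fin 9 → ℂ) := by
    change t * x 0 + t * x 3 = t * (x 0 + x 3)
    ring

lemma fc : f c = 0 := by
  change (Pi.single 8 1 : Fin 9 → ℂ) 0 + (Pi.single 8 1 : Fin 9 → ℂ) 3 = 0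
  simp

lemma fb (x y : E) : f ⁅x, y⁆ = 0 := by
  change bE x y 0 + bE x y 3 = 0
  simp [bE]; ring

lemma cc (x : E) : ⁅c, x⁆ = 0 := show bE (Pi.single 8 1) x = 0 by
  ext i; fin_cases i <;> simp [bE]

lemma c0 : c ≠ 0 := fun h => by
  have : (Pi.single 8 1 : Fin 9 → ℂ) 8 = 0 := congrFun h 8
  simp at this

theorem result : ∃ (L : Type) (_ : LieRing L) (_ : LieAlgebra ℂ L),
    (∀ φ : L → L, IsHalfDer φ → IsScalar φ) ∧ (∀ m : L → L → L, IsTP m → ∀ x y, m x y = 0) ∧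
    ∃ (M : Type) (_ : LieRing M) (_ : LieAlgebra ℂ M) (π : M →ₗ⁅ℂ⁆ L) (c : M), IsNonsplitExt π c ∧
      (∃ m : M → M → M, IsTP m ∧ ∃ x y, m x y ≠ 0) ∧ ∃ φ : M → M, IsHalfDer φ ∧ ¬ IsScalar φ := by
  have cx : ∀ x : E, ⁅x, c⁆ = 0 := fun x => by rw [← lie_skew, cc, neg_zero]
  let u : Fin 9 → E := fun i => (Pi.single i 1 : Fin 9 → ℂ)
  have fu : f (u 0) = 1 := by
    change (Pi.single 0 1 : Fin 9 → ℂ) 0 + (Pi.single 0 1 : Fin 9 → ℂ) 3 = 1
    simp
  refine ⟨A, inferInstance, inferInstance, triv, fun m ⟨h0, h1, _, h3⟩ => ?_, E, inferInstance,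
    inferInstance, pr, c, ⟨fun (x : Fin 8 → ℂ) => ⟨(Fin.snoc x 0 : Fin 9 → ℂ), funext fun i =>
      Fin.snoc_castSucc (α := fun _ => ℂ) _ _ _⟩, c0, cc,
      fun (x : Fin 9 → ℂ) => ⟨fun h => ⟨x 8, ?_⟩, ?_⟩, fun ⟨s, hs⟩ => ?_⟩,
    ⟨fun x y => (f x * f y) • c, ⟨fun x => ⟨fun y z => by simp [mul_add, add_smul], fun t y => by
      simp [smul_smul, mul_left_comm]⟩, fun x y => by simp [mul_comm], fun x y z => by simp [fc],
      fun x y z => by simp [fb, cc, cx]⟩, u 0, u 0, by simp [fu, c0]⟩, fun x => f x • c,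
    ⟨(f.smulRight c).isLinear, fun x y => by simp [fb, cc, cx]⟩, fun ⟨t, ht⟩ => ?_⟩
  · have : ∀ z, IsScalar (m z) := fun z => triv _ ⟨h0 z, fun x y => by
      rw [← h3, smul_smul]; simp⟩
    choose t ht using this
    have e : ∀ (x y : Fin 8 → ℂ) k, t x * y k = t y * x k := fun x y k => by
      have := h1 x y
      rw [ht, ht] at this
      exact congrFun this k
    have e0 := e (Pi.single 0 1) (Pi.single 1 1) 1
    intro (z : Fin 8 → ℂ) y
    have e1 := e z (Pi.single 0 1) 0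
    simp at e0
    simp [e0] at e1
    rw [ht, e1, zero_smul]
  · have : ∀ i : Fin 8, x i.castSucc = 0 := congrFun h
    change x = x 8 • (Pi.single 8 1 : Fin 9 → ℂ)
    ext i
    induction i using Fin.lastCases with
    | last => exact (by simp : x 8 = (x 8 • (Pi.single 8 1 : Fin 9 → ℂ)) 8)
    | cast i => rw [this]; fin_cases i <;> simp
  · rintro ⟨t, ht⟩
    funext i
    have : x i.castSucc = t * (Pi.single 8 1 : Fin 9 → ℂ) i.castSucc := congrFun ht _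
    refine this.trans ?_
    change _ = (0 : ℂ)
    fin_cases i <;> simp
  · let v : Fin 8 → A := fun i => (Pi.single i 1 : Fin 8 → ℂ)
    have h0 : ⁅v 6, v 4⁆ = 0 := show bA (Pi.single 6 1) (Pi.single 4 1) = 0 by
      ext i; fin_cases i <;> simp [bA]
    have h1 := s.map_lie (v 6) (v 4)
    rw [h0, map_zero] at h1
    let w : Fin 8 → Fin 9 → ℂ := fun i => s (v i)
    have h2 : (0 : ℂ) = w 6 6 * w 4 4 + w 6 7 * w 4 5 - w 4 6 * w 6 4 - w 4 7 * w 6 5 := congrFun h1 8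
    have h3 : ∀ i j, w i j.castSucc = (Pi.single i 1 : Fin 8 → ℂ) j := fun i => congrFun (hs (v i))
    rw [show w 6 6 = _ from h3 6 6, show w 4 4 = _ from h3 4 4, show w 6 7 = _ from h3 6 7,
      show w 4 6 = _ from h3 4 6, show w 4 7 = _ from h3 4 7] at h2
    simp at h2
  · have h1 : f c • c = t • c := ht c
    have h2 : f (u 0) • c = t • u 0 := ht (u 0)
    rw [fc, zero_smul, eq_comm, smul_eq_zero, or_iff_left c0] at h1
    rw [fu, h1, one_smul, zero_smul] at h2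
    exact c0 h2

end Pool.Agent.Results.MP_d69fce_al.CentralExt
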